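import Mathlib
import Pool.Agent.Run7.h756.CC.PowE

/-!
# Isolated pairs of consecutive primes between consecutive cubes, with differences from EVERY set

For every `m ≥ 1` there are `D` and `C` (`D = 3` for `m = 1`, `D = 17` for `m = 2`) such that for every finite set
`V` and any `m` maps `f_i` of `V` such that `f_i(V)` misses a class modulo `2` and modulo `3` (for instance with
multiples of `6` as values) whose values differ by more than `R_i`, for all large `N_1, …, N_m`: all members of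
`V` with at most `C` exceptions lie on at most `D` disjoint circles such that for any two neighbours `x`, `y` and
every `i`, with `d = |f_i(x) - f_i(y)|`: for at least `N_i ^ (1 - η)` of the `n ≤ N_i` there are at least
`N_i ^ (2 - η)` pairs of consecutive primes `(p, p + d)` between `n ^ 3` and `(n + 1) ^ 3` such that there are no
further primes at distance at most `R_i` from these two.
-/

set_option autoImplicit false

namespace Pool.Agent.Results.MP_5628fe_nt.IsolatedPairsBetweenCubes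

open Filter Finset
open Pool.Agent.Run7.h756.CC
open Pool.Agent.Run7.h166.TS (NH)

open Classical in
/-- the number of the primes `p` with `p + d` prime, `n ^ 3 < p`, `p + d < (n + 1) ^ 3`, such that there are no
other primes in `[p - R, p + d + R]`; `S 0 6 n` is the `S(n)` of the question -/
noncomputable def S (R d n : ℕ) : ℕ := ((Ioo (n ^ 3) ((n + 1) ^ 3)).filter (fun p : ℕ =>
  p.Prime ∧ (p + d).Prime ∧ p + d < (n + 1) ^ 3 ∧
    ∀ q : ℕ, q.Prime → p ≤ q + R → q ≤ p + d + R → q = p ∨ q = p + d)).card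

/-- the distance of two numbers -/
def dist (x y : ℕ) : ℕ := max x y - min x y

/-- the list `l` is a circle for the relation `adj`: its members are different, neighbours are related, the last
and the first member are related, and it is empty or has at least three members -/
def Circle (adj : ℕ → ℕ → Prop) (l : List ℕ) : Prop :=
  l.Nodup ∧ l.IsChain adj ∧ (∀ x ∈ l.head?, ∀ y ∈ l.getLast?, adj y x) ∧ (l = [] ∨ 3 ≤ l.length)

/-- all members of `V` with at most `C` exceptions are arranged in the disjoint circles `e i` -/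
def CoveredByCircles (adj : ℕ → ℕ → Prop) (V : Finset ℕ) (D C : ℕ) : Prop :=
  ∃ e : Fin D → List ℕ, (∀ i, Circle adj (e i)) ∧ (∀ i j, i ≠ j → List.Disjoint (e i) (e j)) ∧
    (∀ i, ∀ x ∈ e i, x ∈ V) ∧ (V.filter (fun x => ∀ i, x ∉ e i)).card ≤ C

/-- many isolated pairs between consecutive cubes -/
theorem cubes {R N B s t : ℕ} {η : ℝ} (hst : s ≠ t) (hs : s + R ≤ B) (ht : t + R ≤ B)
    (hB : N ^ 3 / 4 + B ≤ N ^ 3 - 1)
    (hN : ∀ S : Finset ℕ, (∀ x ∈ S, 1 ≤ x ∧ x < N ^ 3) →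
      (((N ^ 3 / 4 : ℕ) : ℝ)) ^ (1 - η / (2 * (3 : ℕ))) ≤ (S.card : ℝ) →
      (N : ℝ) ^ (1 - η) ≤ (((Icc 1 N).filter (fun n =>
        (N : ℝ) ^ (((3 - 1 : ℕ) : ℝ) - η) ≤ ((bet S 3 B n).card : ℝ))).card : ℝ))
    (h : AdjN Sh R (η / (2 * (3 : ℕ))) (N ^ 3 / 4) (s + R) (t + R)) :
    (N : ℝ) ^ (1 - η) ≤ (((Icc 1 N).filter (fun n => (N : ℝ) ^ (2 - η) ≤ (S R (dist s t) n : ℝ))).card : ℝ) := by
  classical
  have key : ∀ s t : ℕ, s < t → s + R ≤ B → t + R ≤ B →
      AdjN Sh R (η / (2 * (3 : ℕ))) (N ^ 3 / 4) (s + R) (t + R) →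
      (N : ℝ) ^ (1 - η) ≤ (((Icc 1 N).filter (fun n => (N : ℝ) ^ (2 - η) ≤ (S R (t - s) n : ℝ))).card : ℝ) := by
    intro s t hst hs ht h
    have h1 := adjN_shift (M := N ^ 3 - 1) hst (by omega) h
    have h2 := hN (IG R (t - s) (N ^ 3 - 1)) (by
      intro x hx
      unfold IG at hx
      have := mem_Icc.1 (mem_filter.1 hx).1
      omega) h1
    refine h2.trans ?_
    rw [Nat.cast_le]
    apply card_le_card
    intro n hn
    obtain ⟨h3, h4⟩ := mem_filter.1 hn
    refine mem_filter.2 ⟨h3, ?_⟩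
    have e1 : (((3 - 1 : ℕ) : ℝ) - η) = 2 - η := by norm_num
    rw [e1] at h4
    refine h4.trans ?_
    rw [Nat.cast_le]
    unfold S
    apply card_le_card
    intro x hx
    obtain ⟨h5, h6, h7⟩ := mem_filter.1 hx
    unfold IG at h5
    obtain ⟨h8, h9, h10, h11⟩ := mem_filter.1 h5
    exact mem_filter.2 ⟨mem_Ioo.2 ⟨h6, by omega⟩, h9, h10, by omega, h11⟩
  unfold dist
  rcases lt_or_gt_of_ne hst with h1 | h1
  · rw [max_eq_right h1.le, min_eq_left h1.le]
    exact key s t h1 hs ht h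
  · rw [max_eq_left h1.le, min_eq_right h1.le]
    exact key t s h1 ht hs (adjN_symm _ _ _ _ _ _ h)

theorem isChain_mem {R S : ℕ → ℕ → Prop} {V : Finset ℕ} (h : ∀ x ∈ V, ∀ y ∈ V, x ≠ y → R x y → S x y)
    (l : List ℕ) : l.Nodup → (∀ x ∈ l, x ∈ V) → l.IsChain R → l.IsChain S := by
  induction l with
  | nil => exact fun _ _ _ => List.isChain_nil
  | cons x l ih =>
    intro hn hl hc
    cases l with
    | nil => exact List.isChain_singleton _
    | cons y l =>
      rw [List.isChain_cons_cons] at hc ⊢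
      rw [List.nodup_cons] at hn
      exact ⟨h x (hl x (by simp)) y (hl y (by simp)) (fun h => hn.1 (by rw [h]; simp)) hc.1,
        ih hn.2 (fun z hz => hl z (by simp [hz])) hc.2⟩

/-- **Isolated pairs of consecutive primes between cubes.** -/
theorem result (m : ℕ) (hm : 1 ≤ m) : ∃ D C : ℕ, (m = 1 → D = 3) ∧ (m = 2 → D = 17) ∧
    ∀ (V : Finset ℕ) (R : Fin m → ℕ) (f : Fin m → ℕ → ℕ),
      (∀ i, ∀ s ∈ V, ∀ t ∈ V, s ≠ t → R i < dist (f i s) (f i t)) →
      (∀ i, ∀ p : ℕ, p = 2 ∨ p = 3 → ∃ c : ℕ, ∀ v ∈ V, ¬ f i v ≡ c [MOD p]) →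
      ∀ η : ℝ, 0 < η → ∃ N₀ : ℕ, ∀ N : Fin m → ℕ, (∀ i, N₀ ≤ N i) →
        CoveredByCircles (fun x y => ∀ i, (N i : ℝ) ^ (1 - η) ≤ (((Icc 1 (N i)).filter (fun n =>
          (N i : ℝ) ^ (2 - η) ≤ (S (R i) (dist (f i x) (f i y)) n : ℝ))).card : ℝ)) V D C := by
  classical
  obtain ⟨D, hD1, hD2, hD0, hRP⟩ : ∃ D : ℕ, (m = 1 → D = 3) ∧ (m = 2 → D = 17) ∧ 1 ≤ D ∧ RP m 3 (D + 1) := by
    by_cases h1 : m = 1
    · subst h1
      exact ⟨3, fun _ => rfl, fun h => by omega, by norm_num, rp_one 3⟩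
    by_cases h2 : m = 2
    · subst h2
      exact ⟨17, fun h => by omega, fun _ => rfl, by norm_num, rp_two⟩
    · obtain ⟨R, hR1, hR⟩ := rp_exists m 3
      have hR4 : 4 ≤ R := by
        have : NeZero m := ⟨by omega⟩
        obtain ⟨T, i, hT, -⟩ := hR (fun _ _ => 0) (fun _ _ => rfl)
        have := card_le_univ T
        rw [Fintype.card_fin] at this
        omega
      exact ⟨R - 1, fun h => absurd h h1, fun h => absurd h h2, by omega, by
        rwa [Nat.sub_add_cancel hR1]⟩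
  obtain ⟨K, hK, hNH⟩ := nhN
  obtain ⟨C, hC⟩ := circles_inter (K := K) hm hRP hK
  refine ⟨D, C, hD1, hD2, fun V R f hsep hloc η₀ hη₀ => ?_⟩
  -- reduction to `η ≤ 1`
  obtain ⟨η, hη, hη1, hηle⟩ : ∃ η : ℝ, 0 < η ∧ η ≤ 1 ∧ η ≤ η₀ :=
    ⟨min η₀ 1, lt_min hη₀ one_pos, min_le_right _ _, min_le_left _ _⟩
  set B : ℕ := ∑ i, ∑ v ∈ V, (f i v + R i) + 1 with hB
  have hBle : ∀ i, ∀ v ∈ V, f i v + R i ≤ B := by
    intro i v hv
    have h1 := Finset.single_le_sum (f := fun v => f i v + R i)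
      (fun _ _ => Nat.zero_le _) hv
    have h2 := Finset.single_le_sum (f := fun i => ∑ v ∈ V, (f i v + R i))
      (fun _ _ => Nat.zero_le _) (mem_univ i)
    omega
  have hη6 : 0 < η / (2 * ((3 : ℕ) : ℝ)) := by positivity
  have hev : ∀ i, ∀ᶠ N : ℕ in atTop, (2 * B + 4 ≤ N) ∧ (∀ S : Finset ℕ, (∀ x ∈ S, 1 ≤ x ∧ x < N ^ 3) →
      (((N ^ 3 / 4 : ℕ) : ℝ)) ^ (1 - η / (2 * (3 : ℕ))) ≤ (S.card : ℝ) →
      (N : ℝ) ^ (1 - η) ≤ (((Icc 1 N).filter (fun n =>
        (N : ℝ) ^ (((3 - 1 : ℕ) : ℝ) - η) ≤ ((bet S 3 B n).card : ℝ))).card : ℝ)) ∧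
      NH (fun x y => AdjN Sh (R i) (η / (2 * (3 : ℕ))) (N ^ 3 / 4) (f i x + R i) (f i y + R i)) V 3 K := by
    intro i
    have h1 := nh_shift K hNH (hsep i) (hloc i) hη6
    have h2 : Tendsto (fun N : ℕ => N ^ 3 / 4) atTop atTop :=
      (Nat.tendsto_div_const_atTop (by norm_num)).comp (tendsto_pow_atTop (by norm_num))
    filter_upwards [eventually_ge_atTop (2 * B + 4), many_blocks' 3 (by norm_num) B hη hη1, h2.eventually h1]
      with N h3 h4 h5
    exact ⟨h3, h4, h5⟩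
  obtain ⟨N₀, hN₀⟩ := eventually_atTop.1 (eventually_all.2 hev)
  refine ⟨N₀ + 1, fun N hN => ?_⟩
  have hN' : ∀ i, _ := fun i => hN₀ (N i) (by have := hN i; omega) i
  obtain ⟨e, ⟨he1, he2, he3⟩, hc⟩ := hC
    (fun i x y => AdjN Sh (R i) (η / (2 * (3 : ℕ))) (N i ^ 3 / 4) (f i x + R i) (f i y + R i))
    (fun i x y h => adjN_symm _ _ _ _ _ _ h) id Function.injective_id V (fun i => (hN' i).2.2)
  have key : ∀ x ∈ V, ∀ y ∈ V, x ≠ y →
      (∀ i, AdjN Sh (R i) (η / (2 * (3 : ℕ))) (N i ^ 3 / 4) (f i x + R i) (f i y + R i)) →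
      ∀ i, (N i : ℝ) ^ (1 - η₀) ≤ (((Icc 1 (N i)).filter (fun n =>
          (N i : ℝ) ^ (2 - η₀) ≤ (S (R i) (dist (f i x) (f i y)) n : ℝ))).card : ℝ) := by
    intro x hx y hy hxy h i
    have hne : f i x ≠ f i y := by
      intro h1
      have h2 := hsep i x hx y hy hxy
      rw [h1] at h2
      unfold dist at h2
      simp at h2
    have hNi := (hN' i).1
    have hcube : N i ^ 3 / 4 + B ≤ N i ^ 3 - 1 := by
      have h1 : N i ≤ N i ^ 3 := Nat.le_self_pow (by norm_num) _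
      omega
    have h1 := cubes hne (hBle i x hx) (hBle i y hy) hcube (hN' i).2.1 (h i)
    have hone : (1 : ℝ) ≤ N i := by exact_mod_cast (by omega : 1 ≤ N i)
    refine le_trans (Real.rpow_le_rpow_of_exponent_le hone (by linarith)) (h1.trans ?_)
    rw [Nat.cast_le]
    apply card_le_card
    intro n hn
    obtain ⟨h2, h3⟩ := mem_filter.1 hn
    exact mem_filter.2 ⟨h2, le_trans (Real.rpow_le_rpow_of_exponent_le hone (by linarith)) h3⟩
  refine ⟨e, fun j => ⟨(he1 j).1, isChain_mem key _ (he1 j).1 (he3 j) (he1 j).2.1, ?_, (he1 j).2.2.1⟩,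
    he2, he3, hc⟩
  intro x hx y hy
  refine key y (he3 j y (List.mem_of_getLast? hy)) x (he3 j x (List.mem_of_head? hx)) ?_
    ((he1 j).2.2.2 x hx y hy)
  rintro rfl
  rcases (he1 j).2.2.1 with h1 | h1
  · rw [h1] at hx
    simp at hx
  · have hn := (he1 j).1
    cases hl : e j with
    | nil => rw [hl] at h1; simp at h1
    | cons z l =>
      rw [hl] at hx hy hn h1
      have e1 : z = y := by simpa using hx
      subst e1
      have h2 : l ≠ [] := by
        rintro rfl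
        simp at h1
      rw [List.nodup_cons] at hn
      apply hn.1
      rw [List.getLast?_cons_of_ne_nil h2] at hy
      exact List.mem_of_getLast? hy

end Pool.Agent.Results.MP_5628fe_nt.IsolatedPairsBetweenCubes
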