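import Pool.Agent.Run7.h90.AU.ShiftD

set_option autoImplicit false

/-!
# Sexy pairs between consecutive cubes and at the members of thin families of residues modulo a prime

Let `p` be a large prime and let `(v_i)`, `i ∈ s`, be a family of residues modulo `p` whose exponential sums
`∑ e(ξ v_i / p)`, `ξ ≠ 0`, are at most `p ^ (-ε) |s|`; the family may be very thin. Examples: the values of a sparse
polynomial of arbitrary degree on a subgroup of order `p ^ η`, the values `c_1 g_1 ^ n + ... + c_k g_k ^ n`, `n < N`,
`N ≥ p ^ η`. The theorem is about the integers `n` congruent to a member of the family modulo `p` in an interval of length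
`L ≥ p ^ (1 - δ)`. A sexy pair
in a set of numbers consists of `n`, `n + 6` in the set, no number strictly between them being in the set. In the set of the
numbers without prime factors up to `z` the sexy pairs have the frequency predicted by Hardy and Littlewood for primes, with
the constant `4 C₂`, also between `N ^ 3` and `(N + 1) ^ 3` for all `N` with `(N + 1) ^ 3 - N ^ 3 - 7 ≥ p ^ (1 - δ)`; in
the set of the products of at most `r` primes, all at least `p ^ δ`, they have the right order.

Proof: bound of Bourgain, Glibichuk and Konyagin in the form for recurrences and monomials (`Agent/Run7/h823/BK9`);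
equidistribution in the residue classes modulo all integers up to `p ^ δ` and the fundamental lemma of the sieve
(`Agent/Run7/h90/AU`).
-/

namespace Pool.Agent.Results.MP_5628fe_nt.SexyPairsInSparseFamilies

open Finset Filter Topology
open Pool.Agent.Run7.h90.AU (Formula Orders FormulaBetween OrdersBetween SparseSmall RecurrencesSmall)

/-- The numbers `n`, `n + 6` have the property `P`, and no number strictly between them has it. -/
def Sexy (P : ℕ → Prop) (n : ℕ) : Prop := P n ∧ P (n + 6) ∧ ∀ j : ℕ, 0 < j → j < 6 → ¬ P (n + j)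

/-- The partial products, over the primes `3 ≤ q ≤ z`, of `4 C₂`. -/
noncomputable def partialConstant (z : ℕ) : ℝ := 4 * ∏ q ∈ (Icc 3 z).filter Nat.Prime, (1 - 1 / ((q : ℝ) - 1) ^ 2)

theorem const_eq : Pool.Agent.Run7.h90.AU.pairSeries 6 = partialConstant := by
  funext z
  unfold Pool.Agent.Run7.h90.AU.pairSeries partialConstant
  have e : (6 : ℕ).primeFactors.filter (fun q => 3 ≤ q) = {3} := by
    have h6 : (6 : ℕ).primeFactors = {2, 3} := by
      ext q
      rw [Nat.mem_primeFactors, mem_insert, mem_singleton]
      constructor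
      · rintro ⟨hq, hd, -⟩
        have h1 : q ∣ 2 * 3 := hd
        rcases hq.dvd_mul.1 h1 with h2 | h2
        · exact Or.inl ((Nat.prime_dvd_prime_iff_eq hq Nat.prime_two).1 h2)
        · exact Or.inr ((Nat.prime_dvd_prime_iff_eq hq Nat.prime_three).1 h2)
      · rintro (rfl | rfl)
        · exact ⟨Nat.prime_two, by norm_num, by norm_num⟩
        · exact ⟨Nat.prime_three, by norm_num, by norm_num⟩
    rw [h6]
    rfl
  rw [e, prod_singleton]
  push_cast
  ring

theorem pat_eq : Pool.Agent.Run7.h90.AU.ExactShifts {0, 6} (Ioo 0 6) = Sexy := by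
  funext P n
  unfold Pool.Agent.Run7.h90.AU.ExactShifts Pool.Agent.Run7.h90.AU.Shifts Sexy
  simp only [mem_insert, mem_singleton, forall_eq_or_imp, forall_eq, add_zero, mem_Ioo, and_imp, and_assoc]

theorem result : ∃ D : ℝ, 0 < D ∧ Tendsto partialConstant atTop (𝓝 D) ∧ Formula 2 Sexy D ∧ Orders 2 Sexy ∧
    FormulaBetween 3 6 2 Sexy D ∧ OrdersBetween 3 6 2 Sexy ∧ SparseSmall ∧ RecurrencesSmall := by
  have hd : Disjoint ({0, 6} : Finset ℕ) (Ioo 0 6) := by
    rw [disjoint_left]
    intro x hx hy
    rw [mem_insert, mem_singleton] at hx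
    rw [mem_Ioo] at hy
    omega
  obtain ⟨D, hD, hl, F, O⟩ := Pool.Agent.Run7.h90.AU.exact_shifts
    (Pool.Agent.Run7.h90.AU.adm_pair (show 0 < 6 by norm_num) (by norm_num)) (Ioo 0 6) hd
  rw [pat_eq] at F O
  refine ⟨D, hD, ?_, F, O, F.between 3 6, O.between 3 6, Pool.Agent.Run7.h90.AU.sparse_small,
    Pool.Agent.Run7.h90.AU.rec_small⟩
  rw [← const_eq]
  exact hl.congr' (Pool.Agent.Run7.h90.AU.pairSeries_eq (by norm_num) (by norm_num))

end Pool.Agent.Results.MP_5628fe_nt.SexyPairsInSparseFamilies
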