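import Pool.Agent.Run7.h673.SP.BetF

/-!
# Pairs and tuples of primes between consecutive cubes with differences from thin sequences of superpolynomial growth

For almost all `n` the number of the pairs of primes `p`, `p + 6 ⌊exp (φ (log k))⌋` between `n ^ 3` and `(n + 1) ^ 3`, with
`k` in a range `(y, x]`, is `(x - y) n ^ 2 / log ^ 2 n` up to a factor close to `1`, for instance for `φ t = γ t ^ β` with
`1 < β < 3 / 2`. The differences form a set with `n ^ o(1)` elements. The same is proved for tuples of any length, for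
arbitrary multipliers `κ` in place of `6`, and for the first element in any set of at least `n ^ 2 / log ^ T n` integers.

From Mathlib: `ContDiffAt ℝ ⊤`: infinitely differentiable at a point; `iteratedDeriv m f`: the derivative of order `m`;
`⌊y⌋₊`: the integer part of `y`, and `0` for `y < 0`; `Fintype.piFinset S`: the set of the vectors `k` with `k i ∈ S i`;
`Int.natAbs κ`: the absolute value; `Nat.totient`: Euler's function; `Int.toNat z`: the number `z`, and `0` for `z < 0`;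
`Ioo a b`: the integers strictly between `a` and `b`; `Ioc y x`: the integers `k` with `y < k ≤ x`.

Method: the exponential sums over the integer parts of `exp (φ (log k))`, `y < k ≤ x`, are small at all frequencies with a
distance of at least `log ^ A / exp (φ (log y))` from the integers (Vinogradov's method of bilinear exponential sums with
the mean value theorem in the form of a starting file; files `Pool.Agent.Run7.h673.SP`). By project MK of this run (helper794,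
helper880 and others), localised to short blocks by helper337, the von Mangoldt function minus its mean in the classes prime
to `κ` has small mean squares over short arcs around the fractions `j / κ` in almost all intervals between consecutive cubes.
-/

set_option autoImplicit false

namespace Pool.Agent.Results.MP_5628fe_nt.SuperpolynomialPairsBetweenCubes

open Finset

/-- The conditions on `φ` for the growth of `f t = exp (φ (log t))`: for some `δ > 0`, `K` and `L₀` and all `y > L₀` the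
function `φ` is infinitely differentiable at `y`, `φ y > 0`, `(1 + δ) φ y ≤ y φ' y`, `φ y ≤ y ^ (3 / 2 - δ)`, and
`|φ⁽ᵐ⁾ y| ≤ m! φ y (K / y) ^ m` for all `m ≥ 1`. -/
def Rapid (φ : ℝ → ℝ) : Prop :=
  ∃ δ K L₀ : ℝ, 0 < δ ∧ ∀ y > L₀, ContDiffAt ℝ ((⊤ : ℕ∞) : WithTop ℕ∞) φ y ∧ 0 < φ y ∧
    (1 + δ) * φ y ≤ y * deriv φ y ∧ φ y ≤ y ^ (3 / 2 - δ) ∧
    ∀ m : ℕ, 1 ≤ m → |iteratedDeriv m φ y| ≤ m.factorial * φ y * (K / y) ^ m

/-- `(y, x]` is a range of length at least `x / log ^ a X` in which `f t = exp (φ (log t))` has values between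
`X log ^ C X` and `n ^ 2 / log ^ C X`: `y < x`, `x ≤ log ^ a X (x - y)`, `X log ^ C X ≤ f y` and `f x log ^ C X ≤ n ^ 2`. -/
def Range (φ : ℝ → ℝ) (a C X n x y : ℕ) : Prop :=
  y < x ∧ (x : ℝ) ≤ Real.log X ^ a * ((x : ℝ) - y) ∧
    (X : ℝ) * Real.log X ^ C ≤ Real.exp (φ (Real.log y)) ∧ Real.exp (φ (Real.log x)) * Real.log X ^ C ≤ (n : ℝ) ^ 2

/-- The number of the pairs `(m, k)` of an element `m` of `P` and a vector `k` with `y i < k i ≤ x i` for which all the
numbers `m + κ i ⌊exp (φ i (log (k i)))⌋` are primes strictly between `n ^ 3` and `(n + 1) ^ 3`. -/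
noncomputable def tuples {r : ℕ} (φ : Fin r → ℝ → ℝ) (n : ℕ) (x y : Fin r → ℕ) (κ : Fin r → ℤ) (P : Finset ℕ) : ℕ :=
  ((P ×ˢ Fintype.piFinset fun i => Ioc (y i) (x i)).filter fun w => ∀ i,
    ((n ^ 3 : ℕ) : ℤ) < (w.1 : ℤ) + κ i * ⌊Real.exp (φ i (Real.log (w.2 i)))⌋₊ ∧
    (w.1 : ℤ) + κ i * ⌊Real.exp (φ i (Real.log (w.2 i)))⌋₊ < (((n + 1) ^ 3 : ℕ) : ℤ) ∧
    ((w.1 : ℤ) + κ i * ⌊Real.exp (φ i (Real.log (w.2 i)))⌋₊).toNat.Prime).card

/-- The product of the numbers `κ i / φ(κ i) (x i - y i) / (3 log n)`. -/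
noncomputable def expected {r : ℕ} (n : ℕ) (x y : Fin r → ℕ) (κ : Fin r → ℤ) : ℝ :=
  ∏ i, ((κ i).natAbs / (Nat.totient (κ i).natAbs : ℝ) * (((x i : ℝ) - y i) / (3 * Real.log n)))

/-- The primes strictly between `n ^ 3` and `(n + 1) ^ 3`. -/
def cubePrimes (n : ℕ) : Finset ℕ := (Ioo (n ^ 3) ((n + 1) ^ 3)).filter Nat.Prime

/-- The number of the pairs `(p, k)` with `y < k ≤ x` for which `p` and `p + 6 ⌊exp (φ (log k))⌋` are primes strictly between
`n ^ 3` and `(n + 1) ^ 3`. -/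
noncomputable def sixPairs (φ : ℝ → ℝ) (n x y : ℕ) : ℕ :=
  ((cubePrimes n ×ˢ Ioc y x).filter fun w => w.1 + 6 * ⌊Real.exp (φ (Real.log w.2))⌋₊ ∈ cubePrimes n).card

lemma tuples_eq {r : ℕ} (φ : Fin r → ℝ → ℝ) (n : ℕ) (x y : Fin r → ℕ) (κ : Fin r → ℤ) (P : Finset ℕ) :
    (tuples φ n x y κ P : ℝ) =
      ∑ m ∈ P, ∏ i, (Pool.Agent.Run7.h673.SP.nb (φ i) (x i) (y i) (κ i) (n ^ 3) ((n + 1) ^ 3) m : ℝ) := by
  rw [← Pool.Agent.Run7.h673.SP.btuple_sum]
  rfl

lemma six_eq (φ : ℝ → ℝ) (n x y : ℕ) :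
    sixPairs φ n x y = tuples (fun _ : Fin 1 => φ) n (fun _ => x) (fun _ => y) (fun _ => 6) (cubePrimes n) := by
  unfold sixPairs tuples
  apply card_bij (fun w _ => (w.1, fun _ => w.2))
  · intro w hw
    rw [mem_filter, mem_product] at hw
    obtain ⟨⟨h1, h2⟩, h3⟩ := hw
    rw [mem_filter, mem_product]
    refine ⟨⟨h1, ?_⟩, fun i => ?_⟩
    · rw [Fintype.mem_piFinset]
      exact fun _ => h2
    · rw [cubePrimes, mem_filter, mem_Ioo] at h3
      have e : ((w.1 : ℤ) + 6 * ⌊Real.exp (φ (Real.log w.2))⌋₊) =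
          ((w.1 + 6 * ⌊Real.exp (φ (Real.log w.2))⌋₊ : ℕ) : ℤ) := by push_cast; rfl
      simp only
      rw [e, Int.toNat_natCast]
      exact ⟨by exact_mod_cast h3.1.1, by exact_mod_cast h3.1.2, h3.2⟩
  · intro w _ w' _ h
    rw [Prod.mk.injEq] at h
    have := congrFun h.2 0
    exact Prod.ext h.1 this
  · intro w hw
    rw [mem_filter, mem_product, Fintype.mem_piFinset] at hw
    obtain ⟨⟨h1, h2⟩, h3⟩ := hw
    refine ⟨(w.1, w.2 0), ?_, ?_⟩
    · rw [mem_filter, mem_product]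
      refine ⟨⟨h1, h2 0⟩, ?_⟩
      have h4 := h3 0
      have e : ((w.1 : ℤ) + 6 * ⌊Real.exp (φ (Real.log (w.2 0)))⌋₊) =
          ((w.1 + 6 * ⌊Real.exp (φ (Real.log (w.2 0)))⌋₊ : ℕ) : ℤ) := by push_cast; rfl
      rw [e, Int.toNat_natCast] at h4
      rw [cubePrimes, mem_filter, mem_Ioo]
      exact ⟨⟨by exact_mod_cast h4.1, by exact_mod_cast h4.2.1⟩, h4.2.2⟩
    · refine Prod.ext rfl ?_
      funext i
      fin_cases i
      rfl

/-- **(1)** Let `r`, functions `φ i` (`i < r`) with the conditions `Rapid`, `T`, `U`, `a` and `0 < ε ≤ 1` be fixed. There is `C`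
such that for all large `X` all `n ≤ X` but at most `X / log ^ U X` of them satisfy: for all ranges `(y i, x i]` (`Range`: the
values `exp (φ i (log k))` are between `X log ^ C X` and `n ^ 2 / log ^ C X`) and all integers `κ i ≠ 0` with
`|κ i| ≤ log ^ T X`, (a) for EVERY set `P` of at least `n ^ 2 / log ^ T X` integers strictly between `n ^ 3` and
`(n + 1) ^ 3` that are prime to all `κ i`, the number of the pairs of an element `m` of `P` and a vector `k` for which all the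
`m + κ i ⌊exp (φ i (log (k i)))⌋` are primes strictly between `n ^ 3` and `(n + 1) ^ 3` is
`|P| ∏ κ i / φ(κ i) (x i - y i) / (3 log n)` up to a factor between `1 - ε` and `1 + ε`, and (b) for the primes `m = p` between
`n ^ 3` and `(n + 1) ^ 3` this number is `n ^ 2 / log n` times the product, up to such a factor.

**(2)** Let `φ` satisfy the conditions `Rapid` and let `U`, `a` and `0 < ε ≤ 1` be fixed. There is `C` such that for all large
`X` all `n ≤ X` but at most `X / log ^ U X` of them satisfy: for all ranges `(y, x]` the number of the pairs `(p, k)`,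
`y < k ≤ x`, with `p` and `p + 6 ⌊exp (φ (log k))⌋` primes strictly between `n ^ 3` and `(n + 1) ^ 3` is
`(x - y) n ^ 2 / log ^ 2 n` up to a factor between `1 - ε` and `1 + ε`.

**(3)** Let `φ` satisfy the conditions `Rapid`, `η > 0`, `C`. For all large `X`, all `n ≤ X` and all `Y` with
`X ^ (1 + η) ≤ exp (φ (log Y))` and `exp (φ (log Y)) log ^ C X ≤ n ^ 2` the interval `(⌊Y / 2⌋, Y]` is a range (`a = 1`).

**(4)** The functions `φ y = γ y ^ β` with `γ > 0` and `1 < β < 3 / 2` satisfy the conditions `Rapid`. -/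
theorem result :
    (∀ (r : ℕ) (φ : Fin r → ℝ → ℝ), (∀ i, Rapid (φ i)) → ∀ (T U a : ℕ) (ε : ℝ), 0 < ε → ε ≤ 1 →
      ∃ C X₀ : ℕ, ∀ X : ℕ, X₀ ≤ X →
      ∃ E : Finset ℕ, (E.card : ℝ) ≤ X / Real.log X ^ U ∧ ∀ n : ℕ, 1 ≤ n → n ≤ X → n ∉ E →
      ∀ x y : Fin r → ℕ, (∀ i, Range (φ i) a C X n (x i) (y i)) →
      ∀ κ : Fin r → ℤ, (∀ i, κ i ≠ 0 ∧ ((κ i).natAbs : ℝ) ≤ Real.log X ^ T) →
        (∀ P ⊆ Ioo (n ^ 3) ((n + 1) ^ 3), (∀ m ∈ P, ∀ i, IsCoprime (m : ℤ) (κ i)) →
          (n : ℝ) ^ 2 ≤ P.card * Real.log X ^ T →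
          |(tuples φ n x y κ P : ℝ) - P.card * expected n x y κ| ≤ ε * (P.card * expected n x y κ)) ∧
        |(tuples φ n x y κ (cubePrimes n) : ℝ) - (n : ℝ) ^ 2 / Real.log n * expected n x y κ| ≤
          ε * ((n : ℝ) ^ 2 / Real.log n * expected n x y κ)) ∧
    (∀ φ : ℝ → ℝ, Rapid φ → ∀ (U a : ℕ) (ε : ℝ), 0 < ε → ε ≤ 1 →
      ∃ C X₀ : ℕ, ∀ X : ℕ, X₀ ≤ X →
      ∃ E : Finset ℕ, (E.card : ℝ) ≤ X / Real.log X ^ U ∧ ∀ n : ℕ, 1 ≤ n → n ≤ X → n ∉ E →
      ∀ x y : ℕ, Range φ a C X n x y →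
        |(sixPairs φ n x y : ℝ) - ((x : ℝ) - y) * (n : ℝ) ^ 2 / Real.log n ^ 2| ≤
          ε * (((x : ℝ) - y) * (n : ℝ) ^ 2 / Real.log n ^ 2)) ∧
    (∀ φ : ℝ → ℝ, Rapid φ → ∀ η : ℝ, 0 < η → ∀ C : ℕ, ∃ X₀ : ℕ, ∀ X : ℕ, X₀ ≤ X → ∀ n : ℕ, n ≤ X → ∀ Y : ℕ,
      (X : ℝ) ^ (1 + η) ≤ Real.exp (φ (Real.log Y)) → Real.exp (φ (Real.log Y)) * Real.log X ^ C ≤ (n : ℝ) ^ 2 →
      Range φ 1 C X n Y (Y / 2)) ∧
    (∀ γ β : ℝ, 0 < γ → 1 < β → β < 3 / 2 → Rapid (fun y => γ * y ^ β)) := by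
  have hmain : ∀ (r : ℕ) (φ : Fin r → ℝ → ℝ), (∀ i, Rapid (φ i)) → ∀ (T U a : ℕ) (ε : ℝ), 0 < ε → ε ≤ 1 →
      ∃ C X₀ : ℕ, ∀ X : ℕ, X₀ ≤ X →
      ∃ E : Finset ℕ, (E.card : ℝ) ≤ X / Real.log X ^ U ∧ ∀ n : ℕ, 1 ≤ n → n ≤ X → n ∉ E →
      0 < Real.log n ∧
      ∀ x y : Fin r → ℕ, (∀ i, Range (φ i) a C X n (x i) (y i)) →
      ∀ κ : Fin r → ℤ, (∀ i, κ i ≠ 0 ∧ ((κ i).natAbs : ℝ) ≤ Real.log X ^ T) →
        (∀ P ⊆ Ioo (n ^ 3) ((n + 1) ^ 3), (∀ m ∈ P, ∀ i, IsCoprime (m : ℤ) (κ i)) →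
          (n : ℝ) ^ 2 ≤ P.card * Real.log X ^ T →
          |(tuples φ n x y κ P : ℝ) - P.card * expected n x y κ| ≤ ε * (P.card * expected n x y κ)) ∧
        |(tuples φ n x y κ (cubePrimes n) : ℝ) - (n : ℝ) ^ 2 / Real.log n * expected n x y κ| ≤
          ε * ((n : ℝ) ^ 2 / Real.log n * expected n x y κ) := by
    intro r φ hφ T U a ε hε hε1
    have hφ' : ∀ i, Pool.Agent.Run7.h673.SP.Rapid (φ i) := hφ
    obtain ⟨C, W, X₀, h0⟩ := Pool.Agent.Run7.h673.SP.bet_tuples 2 (by norm_num) r φ hφ' (T + 2) U a (ε / 4) (by positivity)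
      (by linarith)
    obtain ⟨X₁, h1⟩ := Filter.eventually_atTop.1 ((Pool.Agent.N384.MQ.ev_log_ge 2).and
      (Pool.Agent.N384.MQ.ev_log_pow (T + 2 + U + 2 * r + 5 + (T + 1)) 1))
    refine ⟨C + W, X₀ + X₁ + 3, fun X hX => ?_⟩
    obtain ⟨l1, l2⟩ := h1 X (by omega)
    obtain ⟨E, hE1, hE2⟩ := h0 X (by omega)
    refine ⟨E, hE1, fun n hn1 hnX hnE => ?_⟩
    obtain ⟨⟨n1, n2⟩, n3, n4⟩ := hE2 n hn1 hnX hnE
    refine ⟨by linarith, fun x y hr κ hκ => ?_⟩
    obtain ⟨L, hL⟩ : ∃ L, L = Real.log (X : ℝ) := ⟨_, rfl⟩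
    have hL2 : 2 ≤ L := by rw [hL]; exact l1
    have hL0 : 0 < L := by linarith
    have hL1 : 1 ≤ L := by linarith
    have hn0 : (0 : ℝ) < n := by exact_mod_cast hn1
    have hln : Real.log n ≤ L := by
      rw [hL]
      exact Real.log_le_log hn0 (by exact_mod_cast hnX)
    have hln0 : 0 < Real.log n := by linarith
    have hr' : ∀ i, Pool.Agent.Run7.h673.SP.Rgp (φ i) 2 a C W X n (x i) (y i) := by
      intro i
      obtain ⟨r1, r2, r3, r4⟩ := hr i
      refine Pool.Agent.Run7.h673.SP.Rgp.mono (by rw [← hL]; exact hL1) (by omega : C ≤ C + W) (by omega : W ≤ C + W)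
        ⟨r1, ?_, ?_, r4⟩
      · rw [Nat.cast_sub r1.le]
        exact r2
      · have e1 : (X : ℝ) ^ (((2 + 1 : ℕ) : ℝ) / 3) = X := by norm_num
        rw [e1]
        exact r3
    have hκ' : ∀ i, κ i ≠ 0 ∧ ((κ i).natAbs : ℝ) ≤ Real.log X ^ (T + 2) := by
      intro i
      refine ⟨(hκ i).1, (hκ i).2.trans ?_⟩
      rw [← hL]
      exact pow_le_pow_right₀ hL1 (by omega)
    have h4 := n4 x y hr' κ hκ'
    have h5 : (∏ i, ((κ i).natAbs / (Nat.totient (κ i).natAbs : ℝ) *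
        (((x i - y i : ℕ) : ℝ) / (((2 : ℕ) : ℝ) + 1) / Real.log n))) = expected n x y κ := by
      unfold expected
      refine prod_congr rfl fun i _ => ?_
      rw [Nat.cast_sub (hr i).1.le]
      congr 1
      rw [div_div]
      norm_num
    have h5' : (∏ i, ((κ i).natAbs / (Nat.totient (κ i).natAbs : ℝ) *
        (((x i - y i : ℕ) : ℝ) / ((((2 : ℕ) : ℝ) + 1) * Real.log n)))) = expected n x y κ := by
      rw [← h5]
      refine prod_congr rfl fun i _ => ?_
      rw [div_div]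
    rw [h5'] at h4
    simp only [show (2 + 1 : ℕ) = 3 from rfl] at h4
    obtain ⟨G, hG⟩ : ∃ G : ℝ, G = expected n x y κ := ⟨_, rfl⟩
    have hG0 : 0 ≤ G := by
      rw [hG]
      unfold expected
      apply prod_nonneg
      intro i _
      have e2 : (y i : ℝ) < x i := by exact_mod_cast (hr i).1
      have e3 : 0 ≤ (x i : ℝ) - y i := by linarith
      positivity
    rw [← hG] at h4 ⊢
    refine ⟨fun P hPI hPc hPn => ?_, ?_⟩
    · have h6 := h4 P hPI hPc (hPn.trans (by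
        apply mul_le_mul_of_nonneg_left _ (Nat.cast_nonneg _)
        rw [← hL]
        exact pow_le_pow_right₀ hL1 (by omega)))
      rw [← tuples_eq] at h6
      refine h6.trans ?_
      apply mul_le_mul_of_nonneg_right (by linarith)
      positivity
    · have hnd : (0 : ℝ) < (n : ℝ) ^ 2 := by positivity
      have hQ0 : 0 < (n : ℝ) ^ 2 / Real.log n := by positivity
      have hPcard : |((cubePrimes n).card : ℝ) - (n : ℝ) ^ 2 / Real.log n| ≤ ε / 4 * ((n : ℝ) ^ 2 / Real.log n) := n3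
      have h7 := abs_le.1 hPcard
      have hPn : (n : ℝ) ^ 2 ≤ (cubePrimes n).card * Real.log X ^ (T + 2) := by
        rw [← hL]
        have e1 : (n : ℝ) ^ 2 / Real.log n / 2 ≤ (cubePrimes n).card := by nlinarith
        calc (n : ℝ) ^ 2 = ((n : ℝ) ^ 2 / Real.log n / 2) * (2 * Real.log n) := by field_simp
          _ ≤ (cubePrimes n).card * (L * L) := by
              apply mul_le_mul e1 _ (by positivity) (Nat.cast_nonneg _)
              exact mul_le_mul hL2 hln hln0.le hL0.le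
          _ = (cubePrimes n).card * L ^ 2 := by ring
          _ ≤ (cubePrimes n).card * L ^ (T + 2) := by
              apply mul_le_mul_of_nonneg_left _ (Nat.cast_nonneg _)
              exact pow_le_pow_right₀ hL1 (by omega)
      have hPc : ∀ m ∈ cubePrimes n, ∀ i, IsCoprime (m : ℤ) (κ i) := by
        intro m hm i
        rw [cubePrimes, mem_filter, mem_Ioo] at hm
        rw [Int.isCoprime_iff_gcd_eq_one]
        have h11 : (κ i).natAbs < m := by
          have h13 : L ^ (T + 1) ≤ n := by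
            have h15 : L ^ (T + 1) * L ^ (T + 2 + U + 2 * r + 5) ≤ n * L ^ (T + 2 + U + 2 * r + 5) := by
              calc L ^ (T + 1) * L ^ (T + 2 + U + 2 * r + 5) = 1 * L ^ (T + 2 + U + 2 * r + 5 + (T + 1)) := by ring
                _ ≤ X := by rw [hL]; exact l2
                _ ≤ n * L ^ (T + 2 + U + 2 * r + 5) := by rw [hL]; exact n1
            exact le_of_mul_le_mul_right h15 (by positivity)
          have h14 : ((κ i).natAbs : ℝ) ≤ L ^ T := by rw [hL]; exact (hκ i).2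
          have h16 : L ^ T ≤ L ^ (T + 1) := pow_le_pow_right₀ hL1 (by omega)
          have h17 : (κ i).natAbs ≤ n := by exact_mod_cast (h14.trans (h16.trans h13))
          have h18 : n ≤ n ^ 3 := Nat.le_self_pow (by norm_num) n
          omega
        have h14 : Int.gcd (m : ℤ) (κ i) = Nat.gcd m (κ i).natAbs := by
          rw [Int.gcd_def]
          simp
        rw [h14]
        exact (Nat.Prime.coprime_iff_not_dvd hm.2).2 fun hdvd =>
          absurd (Nat.le_of_dvd (Int.natAbs_pos.2 (hκ i).1) hdvd) (by omega)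
      have h6 := h4 (cubePrimes n) (filter_subset _ _) hPc hPn
      rw [← tuples_eq] at h6
      obtain ⟨Q, hQ⟩ : ∃ Q : ℝ, Q = (n : ℝ) ^ 2 / Real.log n := ⟨_, rfl⟩
      rw [← hQ] at h7 hQ0 ⊢
      have h8 := abs_le.1 h6
      have h9 : ((cubePrimes n).card : ℝ) * G ≤ ((1 + ε / 4) * Q) * G := mul_le_mul_of_nonneg_right (by linarith) hG0
      have h10 : ((1 - ε / 4) * Q) * G ≤ ((cubePrimes n).card : ℝ) * G := mul_le_mul_of_nonneg_right (by linarith) hG0
      have h11 : 0 ≤ Q * G := by positivity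
      have h12 : ε / 4 * (((cubePrimes n).card : ℝ) * G) ≤ ε / 4 * (((1 + ε / 4) * Q) * G) :=
        mul_le_mul_of_nonneg_left h9 (by positivity)
      have h13 : ε * ε * (Q * G) ≤ ε * 1 * (Q * G) := by
        apply mul_le_mul_of_nonneg_right _ h11
        exact mul_le_mul_of_nonneg_left hε1 hε.le
      rw [abs_le]
      constructor
      · nlinarith [h8.1]
      · nlinarith [h8.2]
  refine ⟨fun r φ hφ T U a ε hε hε1 => ?_, fun φ hφ U a ε hε hε1 => ?_, fun φ hφ η hη C => ?_,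
    fun γ β h1 h2 h3 => Pool.Agent.Run7.h673.SP.rapid_pow γ β h1 h2 h3⟩
  · obtain ⟨C, X₀, h⟩ := hmain r φ hφ T U a ε hε hε1
    refine ⟨C, X₀, fun X hX => ?_⟩
    obtain ⟨E, hE1, hE2⟩ := h X hX
    exact ⟨E, hE1, fun n hn1 hnX hnE => (hE2 n hn1 hnX hnE).2⟩
  · obtain ⟨C, X₀, h⟩ := hmain 1 (fun _ => φ) (fun _ => hφ) 3 U a ε hε hε1
    obtain ⟨X₁, h1⟩ := Filter.eventually_atTop.1 (Pool.Agent.N384.MQ.ev_log_ge 2)
    refine ⟨C, X₀ + X₁, fun X hX => ?_⟩
    have l1 := h1 X (by omega)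
    obtain ⟨E, hE1, hE2⟩ := h X (by omega)
    refine ⟨E, hE1, fun n hn1 hnX hnE x y hr => ?_⟩
    obtain ⟨hln, h2⟩ := hE2 n hn1 hnX hnE
    have h3 := (h2 (fun _ => x) (fun _ => y) (fun _ => hr) (fun _ => 6) (fun _ => ⟨by norm_num, by
      have e1 : ((Int.natAbs 6 : ℕ) : ℝ) = 6 := by norm_num
      rw [e1]
      calc (6 : ℝ) ≤ 2 ^ 3 := by norm_num
        _ ≤ Real.log X ^ 3 := pow_le_pow_left₀ (by norm_num) l1 3⟩)).2
    rw [← six_eq] at h3
    have e1 : (n : ℝ) ^ 2 / Real.log n * expected n (fun _ : Fin 1 => x) (fun _ => y) (fun _ => 6) =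
        ((x : ℝ) - y) * (n : ℝ) ^ 2 / Real.log n ^ 2 := by
      unfold expected
      rw [Fin.prod_univ_one]
      have e2 : Nat.totient (Int.natAbs 6) = 2 := by decide
      have e3 : ((Int.natAbs 6 : ℕ) : ℝ) = 6 := by norm_num
      rw [e2, e3]
      push_cast
      field_simp
      ring
    rw [e1] at h3
    exact h3
  · have hφ' : Pool.Agent.Run7.h673.SP.Rapid φ := hφ
    obtain ⟨δ, C', L₀, hf⟩ := hφ'.fast
    obtain ⟨N₀, h0⟩ := hf.half (η / 3) (by positivity) C 1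
    obtain ⟨N₃, h3⟩ := Filter.eventually_atTop.1 (Pool.Agent.N384.MQ.ev_log_ge 2)
    refine ⟨N₀ + N₃ + 3, fun X hX n hnX Y h1 h2 => ?_⟩
    have hL := h3 X (by omega)
    have hX1 : (1 : ℝ) ≤ X := by exact_mod_cast (by omega : 1 ≤ X)
    have hX0 : (0 : ℝ) < X := by linarith
    have hnXr : (n : ℝ) ≤ X := by exact_mod_cast hnX
    have hexp := Real.exp_pos (φ (Real.log Y))
    have hX3 : X ≤ X ^ 3 := Nat.le_self_pow (by norm_num) X
    obtain ⟨e1, e2, e3, e4⟩ := h0 (X ^ 3) (by omega) Y (by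
      refine le_trans (le_of_eq ?_) h1
      push_cast
      rw [← Real.rpow_natCast, ← Real.rpow_mul hX0.le]
      congr 1
      push_cast
      ring) (by
      rw [Nat.cast_one, one_mul]
      have e1 : Real.exp (φ (Real.log Y)) ≤ Real.exp (φ (Real.log Y)) * Real.log X ^ C :=
        le_mul_of_one_le_right hexp.le (one_le_pow₀ (by linarith))
      have e2 : (n : ℝ) ^ 2 ≤ ((X ^ 3 : ℕ) : ℝ) := by
        push_cast
        calc (n : ℝ) ^ 2 ≤ (X : ℝ) ^ 2 := pow_le_pow_left₀ (Nat.cast_nonneg _) hnXr 2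
          _ ≤ (X : ℝ) ^ 3 := pow_le_pow_right₀ hX1 (by norm_num)
      exact e1.trans (h2.trans e2))
    refine ⟨e1, ?_, ?_, h2⟩
    · have e5 : ((Y / 2 : ℕ) : ℝ) ≤ (Y : ℝ) / 2 := Nat.cast_div_le
      have e6 : (0 : ℝ) ≤ Y := Nat.cast_nonneg _
      rw [pow_one]
      nlinarith
    · refine le_trans ?_ e3
      have e5 : (((X ^ 3 : ℕ) : ℝ)) ^ (1 / 3 : ℝ) = X := by
        push_cast
        rw [← Real.rpow_natCast, ← Real.rpow_mul hX0.le]
        norm_num
      rw [e5]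
      apply mul_le_mul_of_nonneg_left _ hX0.le
      apply pow_le_pow_left₀ (by linarith)
      exact Real.log_le_log hX0 (by exact_mod_cast hX3)

end Pool.Agent.Results.MP_5628fe_nt.SuperpolynomialPairsBetweenCubes
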