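import Mathlib
import Pool.Agent.Run7.h337.MK.SubU

/-!
# Prime tuples in all sub-intervals between almost all pairs of consecutive cubes
-/

set_option autoImplicit false

namespace Pool.Agent.Results.MP_5628fe_nt.TuplesInAllSubintervals

open Finset
open Run7.h337.MK (PrimeLaw AllFlat)

theorem result (r T U : ℕ) (ε : ℝ) (hε : 0 < ε) (hε1 : ε ≤ 1) :
    ∃ V C D X₀ : ℕ, ∀ X : ℕ, X₀ ≤ X →
    ∃ E : Finset ℕ, (E.card : ℝ) ≤ X / Real.log X ^ U ∧ ∀ n : ℕ, 1 ≤ n → n ≤ X → n ∉ E →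
    ∀ u v : ℕ, n ^ 3 ≤ u → v ≤ (n + 1) ^ 3 → (u : ℝ) + (X : ℝ) ^ 2 / Real.log X ^ T ≤ v →
    PrimeLaw 2 X ε u v ∧ AllFlat 2 r T U V C D X ε u v := by
  obtain ⟨V, C, D, X₀, h⟩ := Run7.h337.MK.sub_unc 2 (by norm_num) r T U ε hε hε1
  refine ⟨V, C, D, X₀, fun X hX => ?_⟩
  obtain ⟨hL, E, hE, h2⟩ := h X hX
  refine ⟨E, hE, fun n hn1 hnX hnE u v hu hv huv => ?_⟩
  refine (h2 n (n + 1) hn1 (Nat.lt_succ_self n) (by omega) ?_ ?_).2 u v hu hv huv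
  · push_cast
    have : (1 : ℝ) ≤ Real.log X ^ T := one_le_pow₀ (by linarith)
    linarith
  · intro k h3 h4
    rw [show k = n by omega]
    exact hnE

end Pool.Agent.Results.MP_5628fe_nt.TuplesInAllSubintervals
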